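import Mathlib
import Pool.Agent.W544.K3.Defs

open Module Finset Pool.Agent.W544.K3

namespace Pool.Agent.W22.K3

theorem multi_expand {R : Type*} [CommRing R] {n k : ℕ}
    (t : MultilinearMap R (fun _ : Fin k => (Fin n → R)) R) (v : Fin k → Fin n → R) :
    t v = ∑ I : Fin k → Fin n, (∏ j, v j (I j)) * t (fun j => Pi.single (I j) 1) := by
  have h : v = fun j => ∑ i, v j i • (Pi.single i (1 : R) : Fin n → R) := by
    funext j
    exact pi_eq_sum_univ' (v j)
  conv_lhs => rw [h]
  rw [MultilinearMap.map_sum]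
  refine Finset.sum_congr rfl fun I _ => ?_
  rw [MultilinearMap.map_smul_univ, smul_eq_mul]

theorem multi_cont {n k : ℕ} (t : MultilinearMap ℝ (fun _ : Fin k => (Fin n → ℝ)) ℝ) :
    Continuous t := by
  have h : (t : (Fin k → Fin n → ℝ) → ℝ) = fun v => ∑ I : Fin k → Fin n, (∏ j, v j (I j)) *
      t (fun j => Pi.single (I j) 1) := by
    funext v
    exact multi_expand t v
  rw [h]
  fun_prop

theorem exp : S_exp := by
  intro n y
  set Y : (Fin n → ℝ) →L[ℝ] (Fin n → ℝ) := LinearMap.toContinuousLinearMap y with hY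
  have hd : ∀ s : ℝ, HasDerivAt (fun u : ℝ => NormedSpace.exp (u • Y))
      (Y * NormedSpace.exp (s • Y)) s := fun s => hasDerivAt_exp_smul_const' Y s
  have hde : ∀ (s : ℝ) (v : Fin n → ℝ), HasDerivAt (fun u : ℝ => NormedSpace.exp (u • Y) v)
      (y (NormedSpace.exp (s • Y) v)) s := by
    intro s v
    have h1 := (hd s).clm_apply (hasDerivAt_const s v)
    have h2 : (Y * NormedSpace.exp (s • Y)) v + (NormedSpace.exp (s • Y)) (0 : Fin n → ℝ) =
        y (NormedSpace.exp (s • Y) v) := by
      rw [map_zero, add_zero]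
      rfl
    rw [← h2]
    exact h1
  refine ⟨fun s => ((NormedSpace.exp (s • Y) : (Fin n → ℝ) →L[ℝ] (Fin n → ℝ)) :
    (Fin n → ℝ) →ₗ[ℝ] (Fin n → ℝ)), ?_, ?_, ?_, ?_, ?_⟩
  · simp
  · intro s
    let _ : NormedAlgebra ℚ ((Fin n → ℝ) →L[ℝ] (Fin n → ℝ)) := NormedAlgebra.restrictScalars ℚ ℝ _
    have h1 : NormedSpace.exp (s • Y) * NormedSpace.exp ((-s) • Y) = 1 := by
      rw [← NormedSpace.exp_add_of_commute]
      · rw [← add_smul]
        simp
      · exact ((Commute.refl Y).smul_left s).smul_right (-s)
    ext v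
    have h2 := DFunLike.congr_fun h1 (Pi.single v 1)
    simpa using congrFun h2 _
  · intro s v
    exact hde s v
  · intro M hM s v hv
    have hcl : IsClosed (M : Set (Fin n → ℝ)) := Submodule.closed_of_finiteDimensional M
    have hs := (NormedSpace.exp_series_hasSum_exp' (𝕂 := ℝ) (s • Y))
    have hs2 := hs.mapL (ContinuousLinearMap.apply ℝ (Fin n → ℝ) v)
    have hpow : ∀ m : ℕ, ((s • Y) ^ m) v ∈ M := by
      intro m
      induction m with
      | zero => simpa using hv
      | succ m ih =>
        rw [pow_succ']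
        exact M.smul_mem s (hM _ ih)
    refine hcl.mem_of_tendsto hs2 (Filter.Eventually.of_forall fun F => ?_)
    refine M.sum_mem fun m _ => ?_
    exact M.smul_mem _ (hpow m)
  · intro k t ht s v
    let T : ContinuousMultilinearMap ℝ (fun _ : Fin k => (Fin n → ℝ)) ℝ :=
      { t with cont := multi_cont t }
    have hder : ∀ u : ℝ, HasDerivAt (fun u : ℝ => T (fun j => NormedSpace.exp (u • Y) (v j))) 0 u := by
      intro u
      have h1 := HasFDerivAt.multilinear_comp (f := T) (x := u)
        (g := fun j (u : ℝ) => NormedSpace.exp (u • Y) (v j))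
        (g' := fun j => ContinuousLinearMap.toSpanSingleton ℝ (y (NormedSpace.exp (u • Y) (v j))))
        (fun j => (hde u (v j)).hasFDerivAt)
      have h2 := h1.hasDerivAt
      have h3 := ht (fun j => NormedSpace.exp (u • Y) (v j))
      refine h2.congr_deriv ?_
      symm
      rw [_root_.sum_apply]
      refine h3.symm.trans (Finset.sum_congr rfl fun j _ => ?_)
      simp only [ContinuousLinearMap.comp_apply,
        ContinuousLinearMap.toSpanSingleton_apply, one_smul]
      rfl
    have hc : ∀ a b : ℝ, T (fun j => NormedSpace.exp (a • Y) (v j)) =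
        T (fun j => NormedSpace.exp (b • Y) (v j)) := by
      intro a b
      exact is_const_of_deriv_eq_zero (fun u => (hder u).differentiableAt)
        (fun u => (hder u).deriv) a b
    have h0 := hc s 0
    simp only [zero_smul, NormedSpace.exp_zero] at h0
    exact h0

end Pool.Agent.W22.K3
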