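import Mathlib
import Pool.Agent.W544.K3.Defs

open Module Finset Pool.Agent.W544.K3 Polynomial

namespace Pool.Agent.W22.K3

theorem cx_apply {n : ℕ} (x : End ℝ (Fin n → ℝ)) (w : Fin n → ℂ) (i : Fin n) :
    cx x w i = ∑ j, ((LinearMap.toMatrix' x i j : ℝ) : ℂ) * w j := by
  simp [cx, Matrix.toLin'_apply, Matrix.mulVec, dotProduct, Matrix.map_apply]

theorem real_apply {n : ℕ} (x : End ℝ (Fin n → ℝ)) (w : Fin n → ℝ) (i : Fin n) :
    x w i = ∑ j, (LinearMap.toMatrix' x i j : ℝ) * w j := by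
  have h := congrFun (LinearMap.toMatrix'_mulVec x w) i
  rw [← h]
  rfl

theorem cx_re {n : ℕ} (x : End ℝ (Fin n → ℝ)) (w : Fin n → ℂ) :
    (fun i => (cx x w i).re) = x (fun i => (w i).re) := by
  funext i
  rw [cx_apply, real_apply]
  simp

theorem cx_ofReal {n : ℕ} (x : End ℝ (Fin n → ℝ)) (w : Fin n → ℝ) :
    cx x (fun i => ((w i : ℝ) : ℂ)) = fun i => ((x w i : ℝ) : ℂ) := by
  funext i
  rw [cx_apply, real_apply]
  simp

/-- `cx` as an algebra homomorphism. -/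
noncomputable def cxHom (n : ℕ) : End ℝ (Fin n → ℝ) →ₐ[ℝ] End ℂ (Fin n → ℂ) :=
  ((Matrix.toLinAlgEquiv' : Matrix (Fin n) (Fin n) ℂ ≃ₐ[ℂ] _).toAlgHom.restrictScalars ℝ).comp
    (((Algebra.ofId ℝ ℂ).mapMatrix).comp
      (LinearMap.toMatrixAlgEquiv' : _ ≃ₐ[ℝ] Matrix (Fin n) (Fin n) ℝ).toAlgHom)

theorem cxHom_apply {n : ℕ} (x : End ℝ (Fin n → ℝ)) : cxHom n x = cx x := by
  rfl

theorem cx_aeval {n : ℕ} (g : End ℝ (Fin n → ℝ)) (p : ℝ[X]) :
    cx (aeval g p) = aeval (cx g) (p.map (algebraMap ℝ ℂ)) := by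
  rw [← cxHom_apply, ← Polynomial.aeval_algHom_apply, cxHom_apply, Polynomial.aeval_map_algebraMap]

theorem aeval_stable {n : ℕ} (g : End ℝ (Fin n → ℝ)) (p : ℝ[X]) (M : Submodule ℝ (Fin n → ℝ))
    (hM : ∀ v ∈ M, g v ∈ M) : ∀ v ∈ M, aeval g p v ∈ M := by
  intro v hv
  have hpow : ∀ m : ℕ, (g ^ m) v ∈ M := by
    intro m
    induction m with
    | zero => simpa using hv
    | succ m ih =>
      rw [pow_succ']
      exact hM _ ih
  rw [Polynomial.aeval_eq_sum_range, LinearMap.sum_apply]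
  exact M.sum_mem fun m _ => M.smul_mem _ (hpow m)

theorem exists_real_poly (S : Finset ℂ) (hS : ∀ z ∈ S, (starRingEnd ℂ) z ∈ S) (n : ℕ)
    (f : ℂ → ℝ) (hf : ∀ z, f ((starRingEnd ℂ) z) = f z) :
    ∃ p : ℝ[X], ∀ z ∈ S, (X - C z) ^ n ∣ p.map (algebraMap ℝ ℂ) - C ((f z : ℝ) : ℂ) := by
  have hcop : Pairwise (Function.onFun IsCoprime
      (fun z : S => Ideal.span {(X - C (z : ℂ)) ^ n})) := by
    intro z w hzw
    have h1 : IsCoprime (X - C (z : ℂ)) (X - C (w : ℂ)) := by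
      apply Polynomial.isCoprime_X_sub_C_of_isUnit_sub
      rw [isUnit_iff_ne_zero, sub_ne_zero]
      exact fun h => hzw (Subtype.ext h)
    have h2 : IsCoprime ((X - C (z : ℂ)) ^ n) ((X - C (w : ℂ)) ^ n) := h1.pow
    exact (Ideal.isCoprime_span_singleton_iff _ _).mpr h2
  obtain ⟨q, hq⟩ := Ideal.exists_forall_sub_mem_ideal hcop (fun z : S => C ((f (z : ℂ) : ℝ) : ℂ))
  have hq' : ∀ z ∈ S, (X - C z) ^ n ∣ q - C ((f z : ℝ) : ℂ) := fun z hz =>
    Ideal.mem_span_singleton.mp (hq ⟨z, hz⟩)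
  set qb := q.map (starRingEnd ℂ) with hqb
  have hqb' : ∀ z ∈ S, (X - C z) ^ n ∣ qb - C ((f z : ℝ) : ℂ) := by
    intro z hz
    have h1 := Polynomial.map_dvd (starRingEnd ℂ) (hq' _ (hS z hz))
    simpa [Polynomial.map_pow, Polynomial.map_sub, hf, hqb] using h1
  have hl : C (1 / 2 : ℂ) * (q + qb) ∈ Polynomial.lifts (algebraMap ℝ ℂ) := by
    rw [Polynomial.lifts_iff_coeff_lifts]
    intro m
    refine ⟨(q.coeff m).re, ?_⟩
    rw [Polynomial.coeff_C_mul, Polynomial.coeff_add, hqb, Polynomial.coeff_map]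
    rw [Complex.add_conj]
    simp
  obtain ⟨p, hp⟩ := (Polynomial.mem_lifts _).mp hl
  refine ⟨p, fun z hz => ?_⟩
  rw [hp]
  have h3 : C (1 / 2 : ℂ) * (q + qb) - C ((f z : ℝ) : ℂ) = C (1 / 2 : ℂ) *
      ((q - C ((f z : ℝ) : ℂ)) + (qb - C ((f z : ℝ) : ℂ))) := by
    have h4 : C (1 / 2 : ℂ) * C (2 : ℂ) = (1 : ℂ[X]) := by
      rw [← C_mul]
      norm_num
    have h5 : (C (2 : ℂ) : ℂ[X]) = 2 := rfl
    rw [h5] at h4
    linear_combination (C ((f z : ℝ) : ℂ)) * h4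
  rw [h3]
  exact Dvd.dvd.mul_left (dvd_add (hq' z hz) (hqb' z hz)) _

theorem logQ : S_logQ := by
  intro n g
  set G := cx (g : End ℝ (Fin n → ℝ)) with hG
  classical
  set Z := (Module.End.finite_hasEigenvalue G).toFinset with hZ
  set S : Finset ℂ := Z ∪ Z.image (starRingEnd ℂ) with hS
  have hSc : ∀ z ∈ S, (starRingEnd ℂ) z ∈ S := by
    intro z hz
    rw [hS, mem_union, mem_image] at hz ⊢
    rcases hz with hz | ⟨w, hw, rfl⟩
    · exact Or.inr ⟨z, hz, rfl⟩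
    · left
      simpa using hw
  obtain ⟨p, hp⟩ := exists_real_poly S hSc n (fun z => Real.log ‖z‖) (by intro z; simp)
  set x : End ℝ (Fin n → ℝ) := aeval (g : End ℝ (Fin n → ℝ)) p with hx
  have hact : ∀ z : ℂ, ∀ v ∈ End.maxGenEigenspace G z,
      cx x v = ((Real.log ‖z‖ : ℝ) : ℂ) • v := by
    intro z v hv
    by_cases hv0 : v = 0
    · rw [hv0, map_zero, smul_zero]
    have hz : z ∈ S := by
      rw [hS, mem_union]
      left
      rw [hZ, Set.Finite.mem_toFinset]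
      have h1 : G.HasUnifEigenvector z ⊤ v := ⟨hv, hv0⟩
      exact h1.hasUnifEigenvalue.lt zero_lt_one
    obtain ⟨r, hr⟩ := hp z hz
    rw [Module.End.maxGenEigenspace_eq_genEigenspace_finrank] at hv
    rw [Module.End.mem_genEigenspace_nat] at hv
    simp only [Module.finrank_fin_fun, LinearMap.mem_ker] at hv
    have h2 : aeval G (p.map (algebraMap ℝ ℂ)) = aeval G (r * (X - C z) ^ n +
        C ((Real.log ‖z‖ : ℝ) : ℂ)) := by
      congr 1
      linear_combination hr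
    rw [hx, cx_aeval, ← hG, h2, map_add, map_mul, map_pow, map_sub, aeval_X, aeval_C, aeval_C]
    rw [LinearMap.add_apply, Module.End.mul_apply]
    have h3 : ((G - (algebraMap ℂ (End ℂ (Fin n → ℂ))) z) ^ n) v = 0 := by
      rw [Algebra.algebraMap_eq_smul_one]
      exact hv
    rw [h3, map_zero, zero_add]
    simp [Algebra.algebraMap_eq_smul_one]
  refine ⟨x, ?_, ?_, hact⟩
  · -- diagonalisability
    have key : ∀ w : Fin n → ℂ, w ∈ (⨆ z : ℂ, End.maxGenEigenspace G z) →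
        (fun i => (w i).re) ∈ (⨆ μ : ℝ, End.eigenspace x μ) := by
      intro w hw
      refine Submodule.iSup_induction (fun z : ℂ => End.maxGenEigenspace G z)
        (motive := fun w => (fun i => (w i).re) ∈ (⨆ μ : ℝ, End.eigenspace x μ)) hw ?_ ?_ ?_
      · intro z v hv
        refine Submodule.mem_iSup_of_mem (Real.log ‖z‖) ?_
        rw [Module.End.mem_eigenspace_iff, ← cx_re, hact z v hv]
        funext i
        simp
      · exact (⨆ μ : ℝ, End.eigenspace x μ).zero_mem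
      · intro a b ha hb
        have h := (⨆ μ : ℝ, End.eigenspace x μ).add_mem ha hb
        exact h
    rw [Diag, eq_top_iff]
    intro v _
    have h1 := key (fun i => ((v i : ℝ) : ℂ)) (by
      rw [Module.End.iSup_maxGenEigenspace_eq_top]
      trivial)
    simpa using h1
  · intro M hM
    exact aeval_stable _ p M hM

end Pool.Agent.W22.K3
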