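import Mathlib
import Pool.Agent.W544.K3.Defs
import Pool.Agent.W22.K3.Exp
import Pool.Agent.W22.K3.LogQ

open Module Finset Pool.Agent.W544.K3

namespace Pool.Agent.W22.K3

/-- the complexification of a real form -/
noncomputable def tC {n k : ℕ} (t : MultilinearMap ℝ (fun _ : Fin k => (Fin n → ℝ)) ℝ) :
    MultilinearMap ℂ (fun _ : Fin k => (Fin n → ℂ)) ℂ :=
  ∑ I : Fin k → Fin n, ((t (fun j => Pi.single (I j) 1) : ℝ) : ℂ) •
    (MultilinearMap.mkPiAlgebra ℂ (Fin k) ℂ).compLinearMap (fun j => LinearMap.proj (I j))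

theorem tC_apply {n k : ℕ} (t : MultilinearMap ℝ (fun _ : Fin k => (Fin n → ℝ)) ℝ)
    (v : Fin k → Fin n → ℂ) :
    tC t v = ∑ I : Fin k → Fin n, ((t (fun j => Pi.single (I j) 1) : ℝ) : ℂ) * ∏ j, v j (I j) := by
  simp [tC]

theorem tC_real {n k : ℕ} (t : MultilinearMap ℝ (fun _ : Fin k => (Fin n → ℝ)) ℝ)
    (v : Fin k → Fin n → ℝ) :
    tC t (fun j i => ((v j i : ℝ) : ℂ)) = ((t v : ℝ) : ℂ) := by
  rw [tC_apply, multi_expand t v]
  push_cast
  exact Finset.sum_congr rfl fun I _ => mul_comm _ _

theorem single_real {n : ℕ} (i : Fin n) :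
    (Pi.single i (1 : ℂ) : Fin n → ℂ) = fun l => (((Pi.single i (1 : ℝ) : Fin n → ℝ) l : ℝ) : ℂ) := by
  funext l
  by_cases h : l = i
  · subst h; simp
  · simp [h]

theorem tC_inv {n k : ℕ} (t : MultilinearMap ℝ (fun _ : Fin k => (Fin n → ℝ)) ℝ)
    (g : End ℝ (Fin n → ℝ)) (ht : ∀ v, t (fun j => g (v j)) = t v) (v : Fin k → Fin n → ℂ) :
    tC t (fun j => cx g (v j)) = tC t v := by
  have h : (tC t).compLinearMap (fun _ => cx g) = tC t := by
    refine Basis.ext_multilinear (fun _ => Pi.basisFun ℂ (Fin n)) fun I => ?_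
    rw [MultilinearMap.compLinearMap_apply]
    simp only [Pi.basisFun_apply, single_real, cx_ofReal]
    rw [tC_real, tC_real, ht]
  have h1 := DFunLike.congr_fun h v
  rwa [MultilinearMap.compLinearMap_apply] at h1

/-- the derivation as a multilinear map -/
noncomputable def dmap {W : Type} [AddCommGroup W] [Module ℂ W] {k : ℕ}
    (t : MultilinearMap ℂ (fun _ : Fin k => W) ℂ) (x : End ℂ W) :
    MultilinearMap ℂ (fun _ : Fin k => W) ℂ :=
  ∑ j, t.compLinearMap (Function.update (fun _ => LinearMap.id) j x)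

theorem dmap_apply {W : Type} [AddCommGroup W] [Module ℂ W] {k : ℕ}
    (t : MultilinearMap ℂ (fun _ : Fin k => W) ℂ) (x : End ℂ W) (v : Fin k → W) :
    dmap t x v = ∑ j, t (Function.update v j (x (v j))) := by
  rw [dmap, _root_.sum_apply]
  refine Finset.sum_congr rfl fun j _ => ?_
  rw [MultilinearMap.compLinearMap_apply]
  congr 1
  funext i
  by_cases h : i = j
  · subst h; simp
  · simp [h]

theorem log : S_logQ → S_logT → S_log := by
  intro hQ hT n g
  obtain ⟨x, hd, hst, hact⟩ := hQ n g
  set G := cx (g : End ℝ (Fin n → ℝ)) with hG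
  refine ⟨x, hd, ?_, ?_, hst⟩
  · intro k t ht v
    have hinv : ∀ w, tC t (fun j => G (w j)) = tC t w := by
      intro w
      exact tC_inv t (g : End ℝ (Fin n → ℝ)) ht w
    have hspan : ⊤ ≤ Submodule.span ℂ (⋃ z : ℂ, (End.maxGenEigenspace G z : Set (Fin n → ℂ))) := by
      rw [Submodule.span_iUnion]
      simp only [Submodule.span_eq]
      rw [Module.End.iSup_maxGenEigenspace_eq_top]
    set b := Basis.ofSpan hspan with hb
    have hbm : ∀ i, ∃ z : ℂ, b i ∈ End.maxGenEigenspace G z := by
      intro i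
      have h1 := Basis.ofSpan_subset hspan (Set.mem_range_self i)
      obtain ⟨z, hz⟩ := Set.mem_iUnion.mp h1
      exact ⟨z, hz⟩
    have hD : dmap (tC t) (cx x) = 0 := by
      refine Basis.ext_multilinear (fun _ => b) fun I => ?_
      rw [dmap_apply, _root_.zero_apply]
      choose z hz using fun j => hbm (I j)
      have h2 : ∀ j, tC t (Function.update (fun j => b (I j)) j (cx x (b (I j)))) =
          ((Real.log ‖z j‖ : ℝ) : ℂ) * tC t (fun j => b (I j)) := by
        intro j
        rw [hact (z j) _ (hz j), MultilinearMap.map_update_smul, Function.update_eq_self,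
          smul_eq_mul]
      simp only [h2]
      rw [← Finset.sum_mul]
      by_cases hp : ∏ j, z j = 1
      · have hz0 : ∀ j ∈ (univ : Finset (Fin k)), ‖z j‖ ≠ 0 := by
          intro j _ h0
          rw [norm_eq_zero] at h0
          rw [Finset.prod_eq_zero (mem_univ j) h0] at hp
          exact zero_ne_one hp
        have h3 : ∑ j, Real.log ‖z j‖ = 0 := by
          rw [← Real.log_prod hz0, ← norm_prod, hp]
          simp
        rw [← Complex.ofReal_sum, h3]
        simp
      · rw [hT _ G k (tC t) hinv z _ hz hp, mul_zero]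
    have h4 := DFunLike.congr_fun hD (fun j i => ((v j i : ℝ) : ℂ))
    rw [dmap_apply, _root_.zero_apply] at h4
    have h5 : ∀ j, tC t (Function.update (fun j i => ((v j i : ℝ) : ℂ)) j
        (cx x (fun i => ((v j i : ℝ) : ℂ)))) =
        ((t (Function.update v j (x (v j))) : ℝ) : ℂ) := by
      intro j
      rw [← tC_real, cx_ofReal]
      congr 1
      funext i
      by_cases h : i = j
      · subst h; simp
      · simp [h]
    simp only [h5] at h4
    exact_mod_cast h4
  · intro α β ⟨u, v, huv, hu, hv⟩ hne hx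
    set w : Fin n → ℂ := fun i => ((u i : ℝ) : ℂ) + Complex.I * ((v i : ℝ) : ℂ) with hw
    have hw0 : w ≠ 0 := by
      intro h
      have h1 : ∀ i, u i = 0 ∧ v i = 0 := by
        intro i
        have h2 := congrFun h i
        have h3 := congrArg Complex.re h2
        have h4 := congrArg Complex.im h2
        simp [hw] at h3 h4
        exact ⟨h3, h4⟩
      rcases huv with h2 | h2
      · exact h2 (funext fun i => (h1 i).1)
      · exact h2 (funext fun i => (h1 i).2)
    have hGw : G w = ((α : ℂ) + Complex.I * (β : ℂ)) • w := by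
      have h1 : w = (fun i => ((u i : ℝ) : ℂ)) + Complex.I • (fun i => ((v i : ℝ) : ℂ)) := by
        funext i
        simp [hw]
      rw [h1, map_add, map_smul, hG, cx_ofReal, cx_ofReal, hu, hv]
      funext i
      simp only [Pi.add_apply, Pi.smul_apply, Pi.sub_apply, smul_eq_mul]
      push_cast
      linear_combination (-((β : ℂ) * ((v i : ℝ) : ℂ))) * Complex.I_mul_I
    have hm : w ∈ End.maxGenEigenspace G ((α : ℂ) + Complex.I * (β : ℂ)) :=
      Module.End.eigenspace_le_maxGenEigenspace (Module.End.mem_eigenspace_iff.mpr hGw)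
    have h1 := hact _ w hm
    rw [hx] at h1
    have h2 : cx (0 : End ℝ (Fin n → ℝ)) w = 0 := by
      rw [← cxHom_apply, map_zero]
      rfl
    rw [h2] at h1
    have h3 := (smul_eq_zero.mp h1.symm).resolve_right hw0
    rw [Complex.ofReal_eq_zero] at h3
    have hsq : ‖(α : ℂ) + Complex.I * (β : ℂ)‖ ^ 2 = α ^ 2 + β ^ 2 := by
      rw [← Complex.normSq_eq_norm_sq, Complex.normSq_apply]
      simp
      ring
    rcases Real.log_eq_zero.mp h3 with h | h | h
    · rw [h] at hsq
      have hα : α = 0 := by nlinarith [sq_nonneg α, sq_nonneg β]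
      have hβ : β = 0 := by nlinarith [sq_nonneg α, sq_nonneg β]
      rw [hα, hβ] at hu hv
      simp only [zero_smul, sub_zero, add_zero] at hu hv
      rcases huv with h2 | h2
      · exact h2 (g.map_eq_zero_iff.mp hu)
      · exact h2 (g.map_eq_zero_iff.mp hv)
    · rw [h] at hsq
      exact hne (by linarith)
    · have := norm_nonneg ((α : ℂ) + Complex.I * (β : ℂ))
      linarith

end Pool.Agent.W22.K3
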